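import Pool.Agent.X297.LO.Stm

/-! ZLO: lower bound for the number of solutions of `a - b + 2c = 2m + e`. -/

set_option autoImplicit false

namespace Pool.Agent.X133.LO

open Pool.Agent.X297.LO

/-- the first admissible `c` -/
def st (m : ℕ) (e : ℤ) (a : ℕ) : ℕ := ((2 * (m : ℤ) + e - a + 1) / 2).toNat

theorem st_b (m E : ℕ) (e : ℤ) (he : |e| ≤ E) (a : ℕ) (ha : a < 2 * m) (i : ℕ)
    (hi : i < m - E - 1) :
    st m e a + i < 2 * m ∧ 0 ≤ (a : ℤ) + 2 * ((st m e a + i : ℕ) : ℤ) - 2 * m - e ∧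
      (a : ℤ) + 2 * ((st m e a + i : ℕ) : ℤ) - 2 * m - e < 2 * m := by
  rw [abs_le] at he
  obtain ⟨h1, h2⟩ := he
  unfold st
  omega

theorem t_ZLO : S_ZLO := by
  intro m E e he
  obtain ⟨T, hT⟩ : ∃ T : Type, T = {p : Fin (2 * m) × Fin (2 * m) × Fin (2 * m) //
      ((p.1 : ℕ) : ℤ) - ((p.2.1 : ℕ) : ℤ) + 2 * ((p.2.2 : ℕ) : ℤ) = 2 * m + e} := ⟨_, rfl⟩
  have key : 2 * m * (m - E - 1) ≤ Nat.card {p : Fin (2 * m) × Fin (2 * m) × Fin (2 * m) //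
      ((p.1 : ℕ) : ℤ) - ((p.2.1 : ℕ) : ℤ) + 2 * ((p.2.2 : ℕ) : ℤ) = 2 * m + e} := by
    have h1 : Nat.card (Fin (2 * m) × Fin (m - E - 1)) = 2 * m * (m - E - 1) := by
      rw [Nat.card_prod, Nat.card_fin, Nat.card_fin]
    rw [← h1]
    refine Nat.card_le_card_of_injective
      (fun q : Fin (2 * m) × Fin (m - E - 1) =>
        (⟨(q.1, ⟨((q.1 : ℤ) + 2 * ((st m e q.1 + q.2 : ℕ) : ℤ) - 2 * m - e).toNat, by
            obtain ⟨-, h2, h3⟩ := st_b m E e he q.1 q.1.2 q.2 q.2.2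
            omega⟩, ⟨st m e q.1 + q.2, (st_b m E e he q.1 q.1.2 q.2 q.2.2).1⟩), by
            obtain ⟨-, h2, h3⟩ := st_b m E e he q.1 q.1.2 q.2 q.2.2
            simp only
            omega⟩ : {p : Fin (2 * m) × Fin (2 * m) × Fin (2 * m) //
      ((p.1 : ℕ) : ℤ) - ((p.2.1 : ℕ) : ℤ) + 2 * ((p.2.2 : ℕ) : ℤ) = 2 * m + e})) ?_
    rintro ⟨a, i⟩ ⟨a', i'⟩ h
    have h2 := congrArg Subtype.val h
    simp only [Prod.mk.injEq, Fin.mk.injEq] at h2
    obtain ⟨h3, -, h4⟩ := h2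
    subst h3
    have h5 : (i : ℕ) = i' := by omega
    rw [Fin.ext h5]
  have key2 : (2 * (m : ℤ) ^ 2 - 4 * m * (E + 2)) ≤ ((2 * m * (m - E - 1) : ℕ) : ℤ) := by
    rcases le_total (E + 1) m with h | h
    · obtain ⟨k, rfl⟩ := Nat.exists_eq_add_of_le h
      have h2 : E + 1 + k - E - 1 = k := by omega
      rw [h2]
      push_cast
      nlinarith [mul_nonneg (Int.natCast_nonneg E) (Int.natCast_nonneg k), Int.natCast_nonneg E,
        Int.natCast_nonneg k]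
    · have h2 : m - E - 1 = 0 := by omega
      rw [h2, mul_zero, Nat.cast_zero]
      have h3 : (m : ℤ) ≤ E + 1 := by exact_mod_cast h
      have h4 : (0 : ℤ) ≤ m := Int.natCast_nonneg m
      nlinarith [mul_nonneg h4 (sub_nonneg.2 h3), mul_nonneg h4 (Int.natCast_nonneg E)]
  exact key2.trans (by exact_mod_cast key)

end Pool.Agent.X133.LO
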